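import Pool.Agent.helper69.AD.GS5

/-!
FE1: the family of a twist deformation (project MP_a29257_gt).
-/

open scoped MatrixGroups LinearAlgebra.Projectivization
open Matrix UpperHalfPlane
open Pool.Agent.helper73.AD (PS Arc Word sg AData Family PreFamily Cone bs)

namespace AdSBend

noncomputable section

open LeafSystem

/-- a finite family of positive numbers has a positive lower bound -/
theorem FE1_low {ι : Type*} [Fintype ι] (c : ι → ℝ) (hc : ∀ i, 0 < c i) :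
    ∃ c₁ : ℝ, 0 < c₁ ∧ ∀ i, c₁ ≤ c i := by
  have hs : ∀ i, (c i)⁻¹ ≤ ∑ j, (c j)⁻¹ := fun i =>
    Finset.single_le_sum (f := fun j => (c j)⁻¹) (fun j _ => (inv_pos.mpr (hc j)).le)
      (Finset.mem_univ i)
  have hs0 : 0 ≤ ∑ j, (c j)⁻¹ := Finset.sum_nonneg fun j _ => (inv_pos.mpr (hc j)).le
  refine ⟨(1 + ∑ j, (c j)⁻¹)⁻¹, by positivity, fun i => ?_⟩
  rw [inv_le_comm₀ (by positivity) (hc i)]
  linarith [hs i]

/-- a finite family of numbers has an upper bound -/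
theorem FE1_up {ι : Type*} [Fintype ι] (C : ι → ℝ) : ∃ C₁ : ℝ, ∀ i, C i ≤ C₁ := by
  refine ⟨∑ j, |C j|, fun i => (le_abs_self _).trans ?_⟩
  exact Finset.single_le_sum (f := fun j => |C j|) (fun j _ => abs_nonneg _) (Finset.mem_univ i)

/-- FE1 -/
theorem FE1 (hFA1 : FA1_stmt) (hFB4 : FB4_stmt) (hFC7 : FC7_stmt) (hFD2 : FD2_stmt)
    (hFD4 : FD4_stmt) (hWD : WD_stmt) (hTW2 : TW2_stmt) (hTF2 : TF2_stmt) (hPN3 : PN3_stmt) :
    FE1_stmt := by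
  intro Γ hΓ J K _ _ _ _ X f r z₀ A hA
  have hadm : ∀ T, X.S.AdmS (fun γ => A T (γ • z₀) * r γ) :=
    hFD2 Γ hΓ X.S X.S' f r z₀ hA.conj hA.off X.cross K X.D'.cls A X.D'.cls_ga X.D'.cls_sw hA.twist
  have hcoord : ∀ T, ∃ z, X.D.Coord (fun γ => A T (γ • z₀) * r γ) z := fun T =>
    (hFB4 Γ hΓ X.S J X.D _ (hadm T)).1
  choose Z hZ using hcoord
  have hr : X.S'.AdmS r := hTF2 Γ hΓ X.S' f r hA.conj
  have hcg : ∀ k, IsClosedGeodesic Γ (X.D'.P k).1 (X.D'.P k).2 := fun k =>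
    X.S'.closed _ (X.D'.memP k)
  have h7 : ∀ T k, _ := fun T k =>
    hFC7 Γ hΓ X.S J X.D (X.D'.P k) (X.w k) (X.W k) _ (Z T) (hcg k) (hadm T) (hZ T)
  -- lengths
  have hlen : ∀ T k, len (A T (gen Γ (X.D'.P k) • z₀) * r (gen Γ (X.D'.P k))) =
      len (r (gen Γ (X.D'.P k))) := by
    intro T k
    obtain ⟨⟨z, hz⟩, -⟩ := hPN3 Γ hΓ X.S' _ (X.D'.memP k)
    have h2 := ((hTW2 Γ hΓ X.S' r (fun p => T (X.D'.cls p)) z₀ hr.1.1 hr.1.2.1
      (fun γ hγ p hp => by simp only [X.D'.cls_ga γ hγ p hp])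
      (fun p hp => by simp only [X.D'.cls_sw p hp]) hA.off).2 (A T) (hA.twist T)).2.2.1
      _ (X.D'.memP k) z hz
    have h3 := hr.1.2.1 _ (X.D'.memP k)
    have h4 := hFA1.2.2.2.2.2 (r (gen Γ (X.D'.P k))) (A T z) h3
    have h5 := hFA1.2.2.2.2.2 (r (gen Γ (X.D'.P k))) (A T z) h3
    have h6 : 2 < |trc (A T z * r (gen Γ (X.D'.P k)) * (A T z)⁻¹)| := by
      have : trc (A T z * r (gen Γ (X.D'.P k)) * (A T z)⁻¹) = trc (r (gen Γ (X.D'.P k))) := by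
        have e : ∀ g : SL(2, ℝ), trc g = Matrix.trace g.1 := fun g => by
          rw [Matrix.trace_fin_two]; rfl
        rw [e, e, Matrix.SpecialLinearGroup.coe_mul, Matrix.SpecialLinearGroup.coe_mul,
          Matrix.trace_mul_comm, ← Matrix.mul_assoc, ← Matrix.SpecialLinearGroup.coe_mul,
          inv_mul_cancel]
        simp
      rw [this]; exact h3
    rcases h2 with h2 | h2
    · rw [h2]; exact h4.1
    · rw [h2, (hFA1.2.2.2.2.2 _ 1 h6).2.2.1]; exact h4.1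
  -- angles
  have hang : ∀ x : (Σ k : K, Fin ((X.w k).n + 1)), ∃ C c : ℝ, 0 < c ∧ ∀ T : K → ℝ,
      1 - (X.w x.1).ct x.2 (Z T) ≤ C * Real.exp (-(T x.1)) ∧
      1 + (X.w x.1).ct x.2 (Z T) ≤ C * Real.exp (T x.1) ∧
      c * Real.exp (-|T x.1|) ≤ 1 - |(X.w x.1).ct x.2 (Z T)| := by
    rintro ⟨k, i⟩
    obtain ⟨hm1, hm2, hm3⟩ := (X.W k).mem (i.val : ℤ)
    obtain ⟨C, c, hc, h⟩ := hFD4 Γ hΓ X.S' f r z₀ hA.conj hA.off K X.D'.cls A X.D'.cls_ga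
      X.D'.cls_sw hA.twist (X.D'.P k) (X.D'.memP k) ((X.W k).A (i.val : ℤ))
      (X.S.closed _ hm1) hm2 hm3
    refine ⟨C, c, hc, fun T => ?_⟩
    obtain ⟨h1, h2, h3⟩ := h T
    rw [X.D'.clsP k] at h1 h2 h3
    have h4 := (h7 T k).2.2.2 i
    simp only at h4 ⊢
    rw [h4, abs_neg]
    refine ⟨?_, ?_, h3⟩ <;> linarith
  choose C c hc hang using hang
  obtain ⟨C₁, hC₁⟩ := FE1_up C
  obtain ⟨c₁, hc₁, hc₁'⟩ := FE1_low c hc
  refine ⟨{ Z := Z, mem := ?_, dZ := ?_, lev := fun k => len (r (gen Γ (X.D'.P k))),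
            level := ?_, C1 := C₁, c1 := c₁, c1_pos := hc₁, ang1 := ?_, ang2 := ?_,
            ang3 := ?_ }, hZ⟩
  · intro T
    exact ((hFB4 Γ hΓ X.S J X.D _ (hadm T)).2.2.1 (Z T) (hZ T)).1
  · exact hWD Γ hΓ J K X f r z₀ A hA Z hadm hZ
  · intro T k
    rw [(h7 T k).2.2.1]
    exact hlen T k
  · intro T k i
    refine (hang ⟨k, i⟩ T).1.trans ?_
    exact mul_le_mul_of_nonneg_right (hC₁ ⟨k, i⟩) (Real.exp_pos _).le
  · intro T k i
    refine (hang ⟨k, i⟩ T).2.1.trans ?_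
    exact mul_le_mul_of_nonneg_right (hC₁ ⟨k, i⟩) (Real.exp_pos _).le
  · intro T k i
    refine le_trans ?_ (hang ⟨k, i⟩ T).2.2
    exact mul_le_mul_of_nonneg_right (hc₁' ⟨k, i⟩) (Real.exp_pos _).le

end

end AdSBend
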