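import Pool.Agent.helper69.AD.GS2

/-!
Module GM3 of the project ad (MP_a29257_gt): distinct closed geodesics of a closed surface have
no common endpoint.
-/

open scoped MatrixGroups LinearAlgebra.Projectivization
open Matrix UpperHalfPlane Filter Topology

namespace AdSBend

noncomputable section

theorem GM3_smul_mk (M : SL(2, ℝ)) (v : Fin 2 → ℝ) (hv : v ≠ 0) :
    ∃ h : M.1 *ᵥ v ≠ 0, M • (Projectivization.mk ℝ v hv : Bd) =
      Projectivization.mk ℝ (M.1 *ᵥ v) h :=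
  ⟨_, Projectivization.smul_mk M hv⟩

theorem GM3_bInf (M : SL(2, ℝ)) (h : M • bInf = bInf) : M.1 1 0 = 0 := by
  obtain ⟨h0, h1⟩ := GM3_smul_mk M ![1, 0] (by intro h; simpa using congrFun h 0)
  have h2 : Projectivization.mk ℝ (M.1 *ᵥ ![1, 0]) h0 = bInf := by
    rw [← h1]; exact h
  unfold bInf at h2
  rw [Projectivization.mk_eq_mk_iff'] at h2
  obtain ⟨a, ha⟩ := h2
  have := congrFun ha 1
  simp [Matrix.mulVec, dotProduct, Fin.sum_univ_two] at this
  exact this.symm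

theorem GM3_bZero (M : SL(2, ℝ)) (h : M.1 0 1 = 0) : M • bZero = bZero := by
  obtain ⟨h0, h1⟩ := GM3_smul_mk M ![0, 1] (by intro h; simpa using congrFun h 1)
  have h2 : Projectivization.mk ℝ (M.1 *ᵥ ![0, 1]) h0 = bZero := by
    unfold bZero
    rw [Projectivization.mk_eq_mk_iff']
    refine ⟨M.1 1 1, ?_⟩
    funext i
    fin_cases i
    · simp [Matrix.mulVec, dotProduct, Fin.sum_univ_two, h]
    · simp [Matrix.mulVec, dotProduct, Fin.sum_univ_two]
  exact h1.trans h2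

theorem GM3_Dm_add (s t : ℝ) : Dm s * Dm t = Dm (s + t) := by
  apply Subtype.ext
  unfold Dm
  simp only [Matrix.SpecialLinearGroup.coe_mul]
  rw [Matrix.mul_fin_two]
  congr 1
  ext i j
  fin_cases i <;> fin_cases j
  · simp [← Real.exp_add, add_div]
  · simp
  · simp
  · simp [← Real.exp_add, add_div]; ring

theorem GM3_Dm_zero : Dm 0 = 1 := by
  apply Subtype.ext
  unfold Dm
  ext i j
  fin_cases i <;> fin_cases j <;> simp

theorem GM3_Dm_inv (t : ℝ) : (Dm t)⁻¹ = Dm (-t) := by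
  rw [inv_eq_iff_mul_eq_one, GM3_Dm_add, add_neg_cancel, GM3_Dm_zero]

theorem GM3_conj (M : SL(2, ℝ)) (s : ℝ) :
    (Dm (-s) * M * Dm s).1 = !![M.1 0 0, M.1 0 1 * Real.exp (-s); M.1 1 0 * Real.exp s, M.1 1 1] := by
  have e1 : Real.exp (s / 2) * Real.exp (-s / 2) = 1 := by
    rw [← Real.exp_add]; simp; ring
  have e2 : Real.exp (s / 2) * Real.exp (s / 2) = Real.exp s := by
    rw [← Real.exp_add]; ring_nf
  have e3 : Real.exp (-s / 2) * Real.exp (-s / 2) = Real.exp (-s) := by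
    rw [← Real.exp_add]; ring_nf
  simp only [Matrix.SpecialLinearGroup.coe_mul]
  rw [Matrix.eta_fin_two M.1]
  unfold Dm
  simp only [Matrix.mul_fin_two]
  ext i j
  fin_cases i <;> fin_cases j
  · simp; linear_combination (M.1 0 0) * e1
  · simp
    have : Real.exp (-(s / 2)) = Real.exp (-s / 2) := by ring_nf
    rw [this]
    linear_combination (M.1 0 1) * e3
  · simp
    have : Real.exp (-(-s / 2)) = Real.exp (s / 2) := by ring_nf
    rw [this]
    linear_combination (M.1 1 0) * e2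
  · simp
    have : Real.exp (-(s / 2)) = Real.exp (-s / 2) := by ring_nf
    rw [this]
    have : Real.exp (-(-s / 2)) = Real.exp (s / 2) := by ring_nf
    rw [this]
    linear_combination (M.1 1 1) * e1

theorem GM3_pow (g d F : SL(2, ℝ)) (t : ℝ) (h : PEq g (F * Dm t * F⁻¹)) (n : ℕ) :
    (g ^ n)⁻¹ * d * g ^ n = F * (Dm (-(n * t)) * (F⁻¹ * d * F) * Dm (n * t)) * F⁻¹ := by
  induction n with
  | zero => simp [GM3_Dm_zero, mul_assoc]
  | succ n ih =>
    have h1 : (g ^ (n + 1))⁻¹ * d * g ^ (n + 1) = g⁻¹ * ((g ^ n)⁻¹ * d * g ^ n) * g := by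
      rw [pow_succ, _root_.mul_inv_rev]; group
    rw [h1, ih]
    have h2 : Dm (-((n + 1 : ℕ) * t)) = (Dm t)⁻¹ * Dm (-(n * t)) := by
      rw [GM3_Dm_inv, GM3_Dm_add]; congr 1; push_cast; ring
    have h3 : Dm ((n + 1 : ℕ) * t) = Dm (n * t) * Dm t := by
      rw [GM3_Dm_add]; congr 1; push_cast; ring
    rw [h2, h3]
    rcases h with h | h
    · rw [h]; group
    · rw [h, inv_neg, neg_mul, neg_mul, mul_neg, neg_neg]; group

theorem GM3 (h5 : BD5_stmt) (h8 : BD8_stmt) : GM3_stmt := by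
  intro Γ hΓ x y y' hxy hxy'
  by_contra hne
  obtain ⟨hxy0, g₀, hg₀, hg1, hgm1, hgx, hgy⟩ := hxy
  obtain ⟨hxy0', d, hd, hd1, hdm1, hdx, hdy'⟩ := hxy'
  obtain ⟨b1, b2, b3, b4, b5, b6, b7, b8⟩ := h8
  -- an element with attracting point x
  obtain ⟨g, hg, hA⟩ : ∃ g ∈ Γ, Attracts g (x, y) := by
    rcases b5 g₀ x y hxy0 hgx hgy (fun h => h.elim hg1 hgm1) with h | h
    · exact ⟨g₀, hg₀, h⟩
    · exact ⟨g₀⁻¹, Γ.inv_mem hg₀, b7 g₀ (y, x) h⟩
  obtain ⟨F, t, hF, ht, hgF⟩ := (b1 g (x, y)).1 hA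
  set M := F⁻¹ * d * F with hM
  have hFx : F • bInf = x := hF.1
  have hFy : F • bZero = y := hF.2
  have hMinf : M • bInf = bInf := by
    rw [hM, mul_smul, mul_smul, hFx, hdx, ← hFx, inv_smul_smul]
  have h10 : M.1 1 0 = 0 := GM3_bInf M hMinf
  have hdet : M.1 0 0 * M.1 1 1 = 1 := by
    have := M.2
    rw [Matrix.det_fin_two, h10] at this
    linarith
  set N : ℕ → SL(2, ℝ) := fun n => Dm (-(n * t)) * M * Dm (n * t) with hN
  have hNmat : ∀ n, (N n).1 = !![M.1 0 0, M.1 0 1 * Real.exp (-(n * t)); 0, M.1 1 1] := by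
    intro n
    rw [hN]
    simp only
    rw [GM3_conj, h10, zero_mul]
  let L0 : SL(2, ℝ) := ⟨!![M.1 0 0, 0; 0, M.1 1 1], by rw [Matrix.det_fin_two_of]; linarith⟩
  have hd0 : (M.1 1 1 : ℂ) ≠ 0 := by
    intro h
    have : M.1 1 1 = 0 := by exact_mod_cast h
    rw [this] at hdet; simp at hdet
  have hw : ∀ n, ((N n • UpperHalfPlane.I : ℍ) : ℂ) =
      ((M.1 0 0 : ℂ) * Complex.I + ((M.1 0 1 * Real.exp (-(n * t)) : ℝ) : ℂ)) / (M.1 1 1 : ℂ) := by
    intro n
    rw [UpperHalfPlane.coe_specialLinearGroup_apply]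
    simp [hNmat n]
  have hL : ((L0 • UpperHalfPlane.I : ℍ) : ℂ) =
      ((M.1 0 0 : ℂ) * Complex.I + ((M.1 0 1 * 0 : ℝ) : ℂ)) / (M.1 1 1 : ℂ) := by
    rw [UpperHalfPlane.coe_specialLinearGroup_apply]
    simp [L0]
  have hexp : Tendsto (fun n : ℕ => Real.exp (-(n * t))) atTop (𝓝 0) := by
    apply Real.tendsto_exp_neg_atTop_nhds_zero.comp
    exact tendsto_natCast_atTop_atTop.atTop_mul_const ht
  have htend : Tendsto (fun n => (N n • UpperHalfPlane.I : ℍ)) atTop
      (𝓝 (L0 • UpperHalfPlane.I : ℍ)) := by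
    rw [UpperHalfPlane.isEmbedding_coe.tendsto_nhds_iff]
    simp only [Function.comp_def, hw, hL]
    apply Tendsto.div_const
    apply Tendsto.add tendsto_const_nhds
    exact (Complex.continuous_ofReal.tendsto _).comp (hexp.const_mul _)
  set w : ℕ → ℍ := fun n => N n • UpperHalfPlane.I with hwdef
  have hcomp : IsCompact (insert (L0 • UpperHalfPlane.I : ℍ) (Set.range w)) :=
    htend.isCompact_insert_range
  set K : Set ℍ := (fun z : ℍ => F • z) ''
    ((insert (L0 • UpperHalfPlane.I : ℍ) (Set.range w)) ∪ {UpperHalfPlane.I}) with hK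
  have hKc : IsCompact K := (hcomp.union isCompact_singleton).image (continuous_const_smul F)
  have hfin := hΓ.proper K hKc
  have hmem : ∀ n : ℕ, (g ^ n)⁻¹ * d * g ^ n ∈
      {γ : SL(2, ℝ) | γ ∈ Γ ∧ ∃ z ∈ K, γ • z ∈ K} := by
    intro n
    refine ⟨Γ.mul_mem (Γ.mul_mem (Γ.inv_mem (Γ.pow_mem hg n)) hd) (Γ.pow_mem hg n),
      F • UpperHalfPlane.I, ⟨_, Or.inr rfl, rfl⟩, ?_⟩
    refine ⟨w n, Or.inl (Or.inr ⟨n, rfl⟩), ?_⟩
    rw [GM3_pow g d F t hgF n, ← hM]
    simp only [hwdef, hN]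
    rw [← mul_smul, ← mul_smul]
    congr 1
    group
  have hninj : ¬ Function.Injective (fun n : ℕ => (g ^ n)⁻¹ * d * g ^ n) := by
    intro hinj
    exact Set.infinite_of_injective_forall_mem hinj hmem hfin
  rw [Function.Injective] at hninj
  push Not at hninj
  obtain ⟨n, m, hnm, hnem⟩ := hninj
  rw [GM3_pow g d F t hgF n, GM3_pow g d F t hgF m, ← hM] at hnm
  have hNN : N n = N m := by
    simpa [hN] using hnm
  have hb : M.1 0 1 * Real.exp (-(n * t)) = M.1 0 1 * Real.exp (-(m * t)) := by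
    have h1 := hNmat n
    rw [hNN, hNmat m] at h1
    have := congrFun (congrFun h1 0) 1
    simpa using this.symm
  have hb0 : M.1 0 1 = 0 := by
    by_contra hb0
    have h1 := mul_left_cancel₀ hb0 hb
    rw [Real.exp_eq_exp] at h1
    have h2 : (n : ℝ) * t = m * t := by linarith
    have h3 : (n : ℝ) = m := mul_right_cancel₀ ht.ne' h2
    exact hnem (by exact_mod_cast h3)
  have hMz : M • bZero = bZero := GM3_bZero M hb0
  have hdy : d • y = y := by
    have h1 : d = F * M * F⁻¹ := by rw [hM]; group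
    rw [← hFy, h1, mul_smul, mul_smul, inv_smul_smul, hMz]
  rcases h5 d x y y' hxy0 hne (Ne.symm hxy0') hdx hdy hdy' with h | h
  · exact hd1 h
  · exact hdm1 h

end

end AdSBend
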