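import Pool.Agent.helper69.AD.GS2

/-!
Module PN3 of the project ad (MP_a29257_gt): every leaf of a leaf system is adjacent to points on
both sides.
-/

open scoped MatrixGroups LinearAlgebra.Projectivization
open Matrix UpperHalfPlane Filter Topology

namespace AdSBend

noncomputable section

/-- the sides of the leaves at a point near `p` -/
theorem PN3_signs (h1 : PT1_stmt) (h3 : PT3_stmt) (h12 : BD12_stmt)
    {Γ : Subgroup SL(2, ℝ)} (S : LeafSystem Γ)
    {p : Bd × Bd} {z : ℍ} (hz : S.Near p z) {q : Bd × Bd} (hq : q ∈ S.L) :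
    (Inside p q → 0 < side z q.1 q.2) ∧ (Inside q p → side z q.1 q.2 < 0) ∧
    (Facing p q → side z q.1 q.2 < 0) ∧ (Facing (p.2, p.1) (q.2, q.1) → 0 < side z q.1 q.2) := by
  obtain ⟨hoff, hfr, hnear⟩ := hz
  have hsw : ∀ x y : Bd, side z y x = - side z x y := fun x y => (h1 1 z x y).2.2.2
  have key : ∀ q ∈ S.L, Inside p q → 0 < side z q.1 q.2 := by
    intro q hq hin
    rcases lt_trichotomy (side z q.1 q.2) 0 with h | h | h
    · exact absurd hin (hnear q hq h)
    · exact absurd h (hoff q hq)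
    · exact h
  have key2 : ∀ q : Bd × Bd, Inside q p → side z q.1 q.2 < 0 := by
    intro q hin
    by_contra hcon
    push Not at hcon
    have := h3.1 q p z hin hcon
    exact absurd hfr (not_lt.2 this.le)
  refine ⟨key q hq, key2 q, ?_, ?_⟩
  · intro hf
    have hin : Inside p (q.2, q.1) := (h12.2.1 p q).1 hf
    have := key (q.2, q.1) (S.swap q hq) hin
    simp only at this
    rw [hsw q.1 q.2] at this
    linarith
  · intro hf
    have hin : Inside (p.2, p.1) q := (h12.2.1 (p.2, p.1) (q.2, q.1)).1 hf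
    have hin2 : Inside (q.2, q.1) p := (h12.2.2.1 (p.2, p.1) q).1 hin
    have := key2 (q.2, q.1) hin2
    simp only at this
    rw [hsw q.1 q.2] at this
    linarith

theorem PN3_same {a b : ℝ} (ha : a ≠ 0) (hb : b ≠ 0) (h : ¬ a * b < 0) :
    (a < 0 ↔ b < 0) ∧ (0 < a ↔ 0 < b) := by
  have h1 : 0 < a * b := lt_of_le_of_ne (not_lt.1 h) (mul_ne_zero ha hb).symm
  rcases lt_or_gt_of_ne ha with h2 | h2
  · have : b < 0 := by nlinarith
    exact ⟨⟨fun _ => this, fun _ => h2⟩, ⟨fun h => absurd h (not_lt.2 h2.le),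
      fun h => absurd h (not_lt.2 this.le)⟩⟩
  · have : 0 < b := by nlinarith
    exact ⟨⟨fun h => absurd h (not_lt.2 h2.le), fun h => absurd h (not_lt.2 this.le)⟩,
      ⟨fun _ => this, fun _ => h2⟩⟩

theorem PN3_small (a b : ℝ) (ha : a ≠ 0) : ∃ s₀ : ℝ, 0 < s₀ ∧ s₀ ≤ 1 ∧
    ∀ s, 0 < s → s < s₀ → 0 < ((1 - s) * a + s * b) * a := by
  refine ⟨a ^ 2 / (a ^ 2 + |b * a| + a ^ 2), ?_, ?_, ?_⟩
  · positivity
  · rw [div_le_one (by positivity)]
    have := abs_nonneg (b * a)
    nlinarith [sq_nonneg a]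
  · intro s hs hs'
    rw [lt_div_iff₀ (by positivity)] at hs'
    have h1 : -|b * a| ≤ b * a := neg_abs_le _
    nlinarith [mul_pos hs (by positivity : (0 : ℝ) < a ^ 2)]

/-- existence of a point near `p` -/
theorem PN3_exists (h1 : PT1_stmt) (h2 : PT2_stmt) (h3 : PT3_stmt) (h4 : PT4_stmt)
    (h5 : PT5_stmt) (h6 : BD6_stmt) (h12 : BD12_stmt) (hG : GM5_stmt)
    {Γ : Subgroup SL(2, ℝ)} (hΓ : IsClosedSurfaceGroup Γ) (S : LeafSystem Γ)
    {p : Bd × Bd} (hp : p ∈ S.L) : ∃ z, S.Near p z := by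
  have hsw : ∀ (z : ℍ) (x y : Bd), side z y x = - side z x y := fun z x y => (h1 1 z x y).2.2.2
  have hpne : p.1 ≠ p.2 := (S.closed p hp).1
  obtain ⟨z0, hz0⟩ := h5.2.1 p.1 p.2 hpne
  obtain ⟨F, hF⟩ := h6.1 p hpne
  obtain ⟨z1, hz1⟩ : ∃ z1 : ℍ, side z1 p.1 p.2 < 0 := by
    refine ⟨F • (⟨⟨1, 1⟩, by simp⟩ : ℍ), ?_⟩
    rw [(h5.1 F p _ hF).1]
    show (0 : ℝ) < ((⟨1, 1⟩ : ℂ)).re
    norm_num
  -- the leaves other than p do not contain z0
  have hz0q : ∀ q ∈ S.L, q ≠ p → q ≠ (p.2, p.1) → side z0 q.1 q.2 ≠ 0 := by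
    intro q hq hqp hqp' h0
    rcases h4 p q z0 hpne (S.closed q hq).1 hz0 h0 with h | h | h
    · exact hqp h
    · exact hqp' h
    · exact S.unlinked p hp q hq h
  have hfin := (hG Γ hΓ S).2.1 z0 z1
  set T := hfin.toFinset with hT
  have hsmall : ∀ q : Bd × Bd, ∃ s₀ : ℝ, 0 < s₀ ∧ s₀ ≤ 1 ∧ (side z0 q.1 q.2 ≠ 0 →
      ∀ s, 0 < s → s < s₀ →
        0 < ((1 - s) * side z0 q.1 q.2 + s * side z1 q.1 q.2) * side z0 q.1 q.2) := by
    intro q
    by_cases h : side z0 q.1 q.2 = 0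
    · exact ⟨1, one_pos, le_refl _, fun h' => absurd h h'⟩
    · obtain ⟨s₀, h1, h2, h3⟩ := PN3_small _ (side z1 q.1 q.2) h
      exact ⟨s₀, h1, h2, fun _ => h3⟩
  choose f hf0 hf1 hf2 using hsmall
  obtain ⟨s, hs0, hs1, hsT⟩ : ∃ s : ℝ, 0 < s ∧ s < 1 ∧ ∀ q ∈ T, s < f q := by
    rcases T.eq_empty_or_nonempty with h | h
    · exact ⟨1 / 2, by norm_num, by norm_num, by simp [h]⟩
    · refine ⟨T.inf' h f / 2, ?_, ?_, ?_⟩
      · have : 0 < T.inf' h f := by
          rw [Finset.lt_inf'_iff]; exact fun q _ => hf0 q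
        linarith
      · obtain ⟨q, hq⟩ := h
        have h2 := Finset.inf'_le f hq
        have h3 := hf1 q
        linarith
      · intro q hq
        have h2 := Finset.inf'_le f hq
        have h3 : 0 < T.inf' h f := by
          rw [Finset.lt_inf'_iff]; exact fun q _ => hf0 q
        linarith
  obtain ⟨w, hw⟩ := h2.1 z0 z1 s hs0.le hs1.le
  have hws := h2.2.1 z0 z1 w s hw
  have hwp : side w p.1 p.2 < 0 := by
    rw [hws, hz0]
    nlinarith
  have hwq : ∀ q ∈ S.L, q ≠ p → q ≠ (p.2, p.1) → 0 < side w q.1 q.2 * side z0 q.1 q.2 := by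
    intro q hq hqp hqp'
    have h0 := hz0q q hq hqp hqp'
    rw [hws]
    by_cases hc : side z0 q.1 q.2 * side z1 q.1 q.2 ≤ 0
    · have hqT : q ∈ T := by
        rw [hT, Set.Finite.mem_toFinset]
        exact ⟨hq, hc⟩
      exact hf2 q h0 s hs0 (hsT q hqT)
    · push Not at hc
      have h5 : 0 < side z0 q.1 q.2 ^ 2 := by positivity
      nlinarith [mul_pos (sub_pos.2 hs1) h5, mul_pos hs0 hc]
  refine ⟨w, ?_, hwp, ?_⟩
  · intro q hq
    by_cases hqp : q = p
    · rw [hqp]; exact hwp.ne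
    by_cases hqp' : q = (p.2, p.1)
    · rw [hqp']
      simp only
      rw [hsw w p.1 p.2]
      have h9 : 0 < - side w p.1 p.2 := by linarith
      exact h9.ne'
    · intro h0
      have := hwq q hq hqp hqp'
      rw [h0, zero_mul] at this
      exact lt_irrefl _ this
  · intro q hq hfr hin
    by_cases hqp : q = p
    · rw [hqp] at hin
      exact h12.2.2.2.2.2.1 p p ⟨hin, hin⟩
    by_cases hqp' : q = (p.2, p.1)
    · rw [hqp'] at hfr
      unfold FrontPt at hfr
      simp only at hfr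
      rw [hsw w p.1 p.2] at hfr
      linarith
    · have h7 := hwq q hq hqp hqp'
      have h8 := h3.1 p q z0 hin hz0.ge
      unfold FrontPt at hfr
      nlinarith

theorem PN3 (h1 : PT1_stmt) (h2 : PT2_stmt) (h3 : PT3_stmt) (h4 : PT4_stmt)
    (h5 : PT5_stmt) (h6 : BD6_stmt) (h12 : BD12_stmt) (hG : GM5_stmt) (hPN : PN1_stmt) :
    PN3_stmt := by
  intro Γ hΓ S p hp
  have hsw : ∀ (z : ℍ) (x y : Bd), side z y x = - side z x y := fun z x y => (h1 1 z x y).2.2.2
  have hp' : (p.2, p.1) ∈ S.L := S.swap p hp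
  have hNotIn : ∀ q : Bd × Bd, ¬ Inside q q := fun q h => h12.2.2.2.2.2.1 q q ⟨h, h⟩
  refine ⟨PN3_exists h1 h2 h3 h4 h5 h6 h12 hG hΓ S hp, ?_, ?_, ?_, ?_⟩
  · -- both sides
    intro z z' hz hz'
    have hzp : side z p.1 p.2 < 0 := hz.2.1
    have hz'p : 0 < side z' p.1 p.2 := by
      have := hz'.2.1
      unfold FrontPt at this
      simp only at this
      rw [hsw z' p.1 p.2] at this
      linarith
    refine ⟨hp, hzp, hz'p, ?_⟩
    intro q hq hsep
    by_contra hcon
    push Not at hcon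
    obtain ⟨hqp, hqp'⟩ := hcon
    unfold SepPts at hsep
    have hs := PN3_signs h1 h3 h12 S hz hq
    have hs' := PN3_signs h1 h3 h12 S hz' hq
    rcases hPN Γ hΓ S p hp q hq hqp hqp' with h | h | h | h
    · have a := hs.1 h
      have b := h3.1 p q z' h hz'p.le
      nlinarith
    · have a := hs.2.1 h
      have h' : Inside (p.2, p.1) (q.2, q.1) := (h12.2.2.1 q p).1 h
      have b := (PN3_signs h1 h3 h12 S hz' (S.swap q hq)).1 h'
      simp only at b
      rw [hsw z' q.1 q.2] at b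
      nlinarith
    · have a := hs.2.2.1 h
      have b := h3.2 p q z' h hz'p.le
      nlinarith
    · have a := hs.2.2.2 h
      have h' : Inside (p.2, p.1) q := (h12.2.1 (p.2, p.1) (q.2, q.1)).1 h
      have b := hs'.1 h'
      nlinarith
  · -- same plaque
    intro z z' hz hz' q hq hsep
    unfold SepPts at hsep
    have hs := PN3_signs h1 h3 h12 S hz hq
    have hs' := PN3_signs h1 h3 h12 S hz' hq
    have hzp : side z p.1 p.2 < 0 := hz.2.1
    have hz'p : side z' p.1 p.2 < 0 := hz'.2.1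
    by_cases hqp : q = p
    · rw [hqp] at hsep; nlinarith
    by_cases hqp' : q = (p.2, p.1)
    · rw [hqp'] at hsep
      simp only at hsep
      rw [hsw z p.1 p.2, hsw z' p.1 p.2] at hsep
      nlinarith
    rcases hPN Γ hΓ S p hp q hq hqp hqp' with h | h | h | h
    · have a := hs.1 h; have b := hs'.1 h; nlinarith
    · have a := hs.2.1 h; have b := hs'.2.1 h; nlinarith
    · have a := hs.2.2.1 h; have b := hs'.2.2.1 h; nlinarith
    · have a := hs.2.2.2 h; have b := hs'.2.2.2 h; nlinarith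
  · -- invariance
    intro z z' hz hoff' hsame
    have hsign : ∀ q ∈ S.L, (side z q.1 q.2 < 0 ↔ side z' q.1 q.2 < 0) := fun q hq =>
      (PN3_same (hz.1 q hq) (hoff' q hq) (hsame q hq)).1
    exact ⟨hoff', (hsign p hp).1 hz.2.1, fun q hq hfr => hz.2.2 q hq ((hsign q hq).2 hfr)⟩
  · -- converse
    intro z z' hoff hoff' hac
    obtain ⟨_, hzp, hz'p, honly⟩ := hac
    unfold FrontPt at hzp
    unfold BehindPt at hz'p
    refine ⟨⟨hoff, hzp, ?_⟩, ⟨hoff', ?_, ?_⟩⟩
    · intro q hq hfr hin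
      unfold FrontPt at hfr
      have b := h3.1 p q z' hin hz'p.le
      rcases honly q hq (by unfold SepPts; nlinarith) with h | h
      · rw [h] at hin; exact hNotIn p hin
      · rw [h] at hfr
        simp only at hfr
        rw [hsw z p.1 p.2] at hfr
        linarith
    · unfold FrontPt
      simp only
      rw [hsw z' p.1 p.2]
      linarith
    · intro q hq hfr hin
      unfold FrontPt at hfr
      have b := h3.1 (p.2, p.1) q z hin (by simp only; rw [hsw z p.1 p.2]; linarith)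
      rcases honly q hq (by unfold SepPts; nlinarith) with h | h
      · rw [h] at hfr; linarith
      · rw [h] at hin; exact hNotIn (p.2, p.1) hin

end

end AdSBend
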